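import Pool.Agent.RCM.Stmts

/-! # Row ASM (helper12) -/

set_option autoImplicit false

namespace Pool.Agent.RCM.H12

open Set

universe u

theorem asm (hTWO : TwoStmt.{u}) (hMUL : MulStmt.{u}) : AsmStmt.{u} := by
  intro E K _ _ M N κ s τ F G hcol hF hG hFm hGm hτs hcase
  by_contra hcon
  have hle : ∀ T, RI M N κ T → T.ncard ≤ τ := by
    intro T hT
    by_contra h
    exact hcon ⟨T, hT, not_le.1 h⟩
  -- a state of maximal size
  obtain ⟨T, hT, hmax⟩ : ∃ T, RI M N κ T ∧ ∀ T', RI M N κ T' → T'.ncard ≤ T.ncard := by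
    have hfin : {T : Set E | RI M N κ T}.Finite := Set.toFinite _
    have hne : {T : Set E | RI M N κ T}.Nonempty :=
      ⟨∅, ⟨M.empty_indep, N.empty_indep, by simp⟩⟩
    obtain ⟨T, hT, h⟩ := Set.exists_max_image _ (fun T : Set E => T.ncard) hfin hne
    exact ⟨T, hT, fun T' h' => h T' h'⟩
  set t := T.ncard with ht
  have htτ : t ≤ τ := hle T hT
  have hmx : Mx M N κ t := hmax
  have hmx' : Mx N M κ t := fun T' h' => hmax T' ⟨h'.indN, h'.indM, h'.inj⟩
  have hcol' : Col N M κ s := ⟨hcol.indN, hcol.indM, hcol.card⟩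
  have hcardK : Nat.card K = Fintype.card K := Nat.card_eq_fintype_card
  have hS : ∀ X : Set K, (∀ e ∈ T, κ e ∉ X) → St M N κ ∅ X t T := fun X hX =>
    ⟨hT, rfl, by rw [union_empty]; exact hT.indM, disjoint_empty T, hX⟩
  have hS' : ∀ X : Set K, (∀ e ∈ T, κ e ∉ X) → St N M κ ∅ X t T := fun X hX =>
    ⟨⟨hT.indN, hT.indM, hT.inj⟩, rfl, by rw [union_empty]; exact hT.indN, disjoint_empty T, hX⟩
  have himn : (κ '' T).ncard = t := Set.InjOn.ncard_image hT.inj
  have hcompl : (κ '' T)ᶜ.ncard + t = Fintype.card K := by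
    have := ncard_add_ncard_compl (κ '' T) (Set.toFinite _) (Set.toFinite _)
    rw [hcardK, himn] at this
    omega
  set z := s - t with hz
  have hsz : t + (∅ : Set E).ncard + z ≤ s := by rw [ncard_empty]; omega
  have hzz : s - τ ≤ z := by omega
  rcases hcase with ⟨hτK, hor⟩ | ⟨hτK, hlt⟩
  · have hne : (κ '' T)ᶜ.Nonempty := by
      rw [← ncard_pos (Set.toFinite _)]; omega
    obtain ⟨c, hc⟩ := hne
    have hunM : (Un κ ∅ T).Nonempty := ⟨c, fun h => h, hc⟩
    have h1 := hF t ∅ ∅ T z hmx (hS ∅ fun _ _ h => h) hunM hsz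
    have h2 := hG t ∅ ∅ T z hmx' (hS' ∅ fun _ _ h => h) hunM hsz
    have h3 : (T \ Sta M N κ ∅ ∅ T).ncard ≤ t := ncard_le_ncard sdiff_subset (Set.toFinite _)
    have h4 : (T \ Sta N M κ ∅ ∅ T).ncard ≤ t := ncard_le_ncard sdiff_subset (Set.toFinite _)
    have h5 := hFm hzz
    have h6 := hGm hzz
    rcases hor with h | h <;> omega
  · have hne : (κ '' T)ᶜ.Nonempty := by
      rw [← ncard_pos (Set.toFinite _)]; omega
    obtain ⟨c, hc⟩ := hne
    set X1 : Set K := (κ '' T)ᶜ \ {c} with hX1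
    set X2 : Set K := {c} with hX2
    have hst1 : St M N κ ∅ X1 t T := hS X1 fun e he h => h.1 ⟨e, he, rfl⟩
    have hst2 : St N M κ ∅ X2 t T := hS' X2 fun e he h => hc ⟨e, he, h⟩
    have hun1 : (Un κ X1 T).Nonempty := ⟨c, fun h => h.2 rfl, hc⟩
    have hun2e : Un κ X2 T = (κ '' T)ᶜ \ {c} := by
      ext g
      constructor
      · rintro ⟨h1, h2⟩; exact ⟨h2, h1⟩
      · rintro ⟨h1, h2⟩; exact ⟨h2, h1⟩
    have hun2n : (Un κ X2 T).ncard + 1 = (κ '' T)ᶜ.ncard := by
      rw [hun2e]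
      exact ncard_sdiff_singleton_add_one hc (Set.toFinite _)
    have hun2 : (Un κ X2 T).Nonempty := by
      rw [← ncard_pos (Set.toFinite _)]; omega
    have h1 := hF t ∅ X1 T z hmx hst1 hun1 hsz
    have h2 := hMUL E K N M κ s t ∅ X2 T z G hcol' hG hmx' hst2 hun2 hsz
    have hdis := hTWO E K M N κ s t X1 X2 T hcol hmx hst1 hst2 (by
      intro g hg
      by_cases h : g = c
      · exact Or.inr h
      · exact Or.inl ⟨hg, h⟩)
    have h3 : (T \ Sta M N κ ∅ X1 T ∪ T \ Sta N M κ ∅ X2 T).ncard ≤ t :=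
      ncard_le_ncard (union_subset sdiff_subset sdiff_subset) (Set.toFinite _)
    rw [ncard_union_eq hdis (Set.toFinite _) (Set.toFinite _)] at h3
    have h5 := hFm hzz
    have h6 := hGm hzz
    have h7 : (Fintype.card K - τ - 2) * (s - τ) ≤ ((Un κ X2 T).ncard - 1) * z :=
      Nat.mul_le_mul (by omega) hzz
    omega

end Pool.Agent.RCM.H12
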