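import Pool.Agent.RCM.Stmts

/-! # Row KIL (helper12) -/

set_option autoImplicit false

namespace Pool.Agent.RCM.H12

open Set

universe u

theorem kil (hLSD : LsdStmt.{u}) : KilStmt.{u} := by
  intro E K _ _ M N κ s t P X T T1 T2 Q W g hcol hmx hst h1 h2 hg hg1 hg2 hind hdis hW
  obtain ⟨l1, l2⟩ := hLSD E K M N κ s t P X T hcol hmx hst
  set Phi := Ph M N κ P X T with hPhi
  set L : Set E := κ ⁻¹' {g} \ Phi with hL
  have hLc : s ≤ L.ncard + (T \ Sta M N κ P X T).ncard := by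
    have ha := hcol.card g
    have hb := Set.ncard_inter_add_ncard_sdiff_eq_ncard (κ ⁻¹' {g}) Phi (Set.toFinite _)
    have hc := l2 g
    have hd : L.ncard = (κ ⁻¹' {g} \ Phi).ncard := by rw [hL]
    omega
  have hLind : M.Indep L := (hcol.indM g).subset sdiff_subset
  have hL2 : L ⊆ M.closure (T2 ∪ P) := by
    rintro x ⟨hx1, hx2⟩
    have hx1' : κ x = g := hx1
    exact l1 T2 x h2 (by rw [hx1']; exact hg) (by rw [hx1']; exact hg2) hx2
  have hL1 : L ⊆ M.closure (T1 ∪ P) := by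
    rintro x ⟨hx1, hx2⟩
    have hx1' : κ x = g := hx1
    exact l1 T1 x h1 (by rw [hx1']; exact hg) (by rw [hx1']; exact hg1) hx2
  have hLW : L ∪ Q ⊆ M.closure W := by
    apply union_subset
    · refine hL1.trans ?_
      exact M.closure_subset_closure_of_subset_closure (subset_union_left.trans hW)
    · exact subset_union_right.trans hW
  -- ranks
  have hsub := M.eRk_inter_add_eRk_union_le (L ∪ Q) ((T2 ∪ P) ∪ L)
  have e1 : M.eRk L = L.encard := hLind.eRk_eq_encard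
  have e2 : M.eRk (T2 ∪ P ∪ Q) = (T2 ∪ P ∪ Q).encard := hind.eRk_eq_encard
  have e3 : (T2 ∪ P ∪ Q).encard = (T2 ∪ P).encard + Q.encard := encard_union_eq hdis
  have e4 : M.eRk L ≤ M.eRk ((L ∪ Q) ∩ ((T2 ∪ P) ∪ L)) :=
    M.eRk_mono (subset_inter subset_union_left subset_union_right)
  have e5 : M.eRk (T2 ∪ P ∪ Q) ≤ M.eRk ((L ∪ Q) ∪ ((T2 ∪ P) ∪ L)) := by
    apply M.eRk_mono
    rintro x (hx | hx)
    · exact Or.inr (Or.inl hx)
    · exact Or.inl (Or.inr hx)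
  have hTPE : T2 ∪ P ⊆ M.E := (subset_union_left.trans hind.subset_ground)
  have e6 : M.eRk ((T2 ∪ P) ∪ L) ≤ (T2 ∪ P).encard := by
    calc M.eRk ((T2 ∪ P) ∪ L) ≤ M.eRk (M.closure (T2 ∪ P)) :=
          M.eRk_mono (union_subset (M.subset_closure _ hTPE) hL2)
      _ = M.eRk (T2 ∪ P) := M.eRk_closure_eq _
      _ ≤ (T2 ∪ P).encard := M.eRk_le_encard _
  have e7 : M.eRk (L ∪ Q) ≤ W.encard := by
    calc M.eRk (L ∪ Q) ≤ M.eRk (M.closure W) := M.eRk_mono hLW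
      _ = M.eRk W := M.eRk_closure_eq _
      _ ≤ W.encard := M.eRk_le_encard _
  have e8 : L.encard + ((T2 ∪ P).encard + Q.encard) ≤ W.encard + (T2 ∪ P).encard := by
    calc L.encard + ((T2 ∪ P).encard + Q.encard)
        = M.eRk L + M.eRk (T2 ∪ P ∪ Q) := by rw [e1, e2, e3]
      _ ≤ M.eRk ((L ∪ Q) ∩ ((T2 ∪ P) ∪ L)) + M.eRk ((L ∪ Q) ∪ ((T2 ∪ P) ∪ L)) := add_le_add e4 e5
      _ ≤ M.eRk (L ∪ Q) + M.eRk ((T2 ∪ P) ∪ L) := hsub
      _ ≤ W.encard + (T2 ∪ P).encard := add_le_add e7 e6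
  have f1 : L.encard = (L.ncard : ℕ∞) := (Set.toFinite L).cast_ncard_eq.symm
  have f2 : (T2 ∪ P).encard = ((T2 ∪ P).ncard : ℕ∞) := (Set.toFinite _).cast_ncard_eq.symm
  have f3 : Q.encard = (Q.ncard : ℕ∞) := (Set.toFinite Q).cast_ncard_eq.symm
  have f4 : W.encard = (W.ncard : ℕ∞) := (Set.toFinite W).cast_ncard_eq.symm
  rw [f1, f2, f3, f4] at e8
  have e9 : L.ncard + ((T2 ∪ P).ncard + Q.ncard) ≤ W.ncard + (T2 ∪ P).ncard := by
    exact_mod_cast e8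
  omega

end Pool.Agent.RCM.H12
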