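import Pool.Agent.RCM.Stmts

/-! # Row ONE (helper12) -/

set_option autoImplicit false

namespace Pool.Agent.RCM.H12

open Set

universe u

theorem one (hRMV : RmvStmt.{u}) (hKIL : KilStmt.{u}) (hRCH : RchStmt.{u}) : OneStmt.{u} := by
  intro E K _ _ M N κ s t P X T Q T' z hcol hmx hst hun hsz hQT hPQ hT' hst' hPl hRc hh
  obtain ⟨c, hcX, hcT⟩ := hun
  obtain ⟨hY1, hY2⟩ := hRMV E K M N κ s t P X T c z hcol hmx hst hcX hcT hsz
  set Y : Set E := {y ∈ T | ∃ x, κ x = c ∧ x ∉ M.closure (T ∪ P) ∧ x ∉ N.closure (T \ {y})} with hY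
  have hYT : Y ⊆ T := fun y hy => hy.1
  set C : Set K := insert c (κ '' Y) with hC
  have hcY : c ∉ κ '' Y := fun ⟨y, hy, h⟩ => hcT ⟨y, hYT hy, h⟩
  have hCn : z + 1 ≤ C.ncard := by
    rw [hC, ncard_insert_of_notMem hcY (Set.toFinite _),
      Set.InjOn.ncard_image (hst.ri.inj.mono hYT)]
    omega
  -- the moved states
  have hmove : ∀ y ∈ Y, ∃ x, κ x = c ∧ Mv M N κ P X T (insert x (T \ {y})) := by
    rintro y ⟨hyT, x, hx1, hx2, hx3⟩
    exact ⟨x, hx1, x, y, hyT, by rw [hx1]; exact hcT, by rw [hx1]; exact hcX, hx2, hx3, rfl⟩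
  have hnot : ∀ y ∈ Y, ∀ x, κ x = c → κ y ∉ κ '' (insert x (T \ {y})) := by
    rintro y hy x hx ⟨f, hf, hfe⟩
    rcases hf with rfl | ⟨hf1, hf2⟩
    · exact hcT ⟨y, hYT hy, by rw [← hfe, hx]⟩
    · exact hf2 (hst.ri.inj hf1 (hYT hy) hfe)
  have hCP : C ⊆ Pl M N κ P X T := by
    rintro g (rfl | ⟨y, hy, rfl⟩)
    · exact ⟨hcX, T, Relation.ReflTransGen.refl, hcT⟩
    · obtain ⟨x, hx, hmv⟩ := hmove y hy
      exact ⟨hst.col y (hYT hy), _, Relation.ReflTransGen.single hmv, hnot y hy x hx⟩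
  have hground : ∀ e : E, e ∈ M.E := fun e =>
    (hcol.indM (κ e)).subset_ground (by simp)
  have hdis : Disjoint C (Pl M N κ (P ∪ Q) X T') := by
    rw [Set.disjoint_left]
    rintro g hgC ⟨hgX, T2, hT2, hg2⟩
    have hst2 := (hRCH E K M N κ s t (P ∪ Q) X T' T2 hcol hmx hst' hT2).1
    have hind : M.Indep (T2 ∪ P ∪ Q) := by rw [union_assoc]; exact hst2.fr
    have hdj : Disjoint (T2 ∪ P) Q := by
      rw [disjoint_union_left]
      exact ⟨hst2.dj.mono_right subset_union_right, hPQ⟩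
    have hkil := fun (T1 W : Set E) => hKIL E K M N κ s t P X T T1 T2 Q W g hcol hmx hst
    have hTPn : (T ∪ P).ncard ≤ t + P.ncard := by
      have := ncard_union_le T P
      rw [hst.card] at this
      exact this
    rcases hgC with rfl | ⟨y, hy, rfl⟩
    · have hW : T ∪ P ∪ Q ⊆ M.closure (T ∪ P) := by
        have h1 : T ∪ P ∪ Q = T ∪ P := by
          apply union_eq_self_of_subset_right
          exact hQT.trans subset_union_left
        rw [h1]
        exact M.subset_closure _ (fun e _ => hground e)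
      have h := hkil T (T ∪ P) Relation.ReflTransGen.refl (hRc T2 hT2) hgX hcT hg2 hind hdj hW
      omega
    · obtain ⟨x, hx, hmv⟩ := hmove y hy
      have hW : insert x (T \ {y}) ∪ P ∪ Q ⊆ M.closure (insert x (T ∪ P)) := by
        refine subset_trans ?_ (M.subset_closure _ (fun e _ => hground e))
        rintro e ((he | he) | he)
        · rcases he with rfl | he
          · exact Or.inl rfl
          · exact Or.inr (Or.inl he.1)
        · exact Or.inr (Or.inr he)
        · exact Or.inr (Or.inl (hQT he))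
      have hWn : (insert x (T ∪ P)).ncard ≤ t + P.ncard + 1 := by
        have := ncard_insert_le x (T ∪ P)
        omega
      have h := hkil _ (insert x (T ∪ P)) (Relation.ReflTransGen.single hmv) (hRc T2 hT2) hgX
        (hnot y hy x hx) hg2 hind hdj hW
      omega
  have hun2 : C ∪ Pl M N κ (P ∪ Q) X T' ⊆ Pl M N κ P X T := union_subset hCP hPl
  have h1 := ncard_le_ncard hun2 (Set.toFinite _)
  rw [ncard_union_eq hdis (Set.toFinite _) (Set.toFinite _)] at h1
  omega

end Pool.Agent.RCM.H12
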