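import Pool.Agent.RCM.Stmts

/-! # Row PLC (helper12) -/

set_option autoImplicit false

namespace Pool.Agent.RCM.H12

open Set

universe u

theorem plc (hRCH : RchStmt.{u}) : PlcStmt.{u} := by
  intro E K _ _ M N κ s t P X T hcol hmx hst
  have hfin : (T \ Sta M N κ P X T).Finite := Set.toFinite _
  have key : Pl M N κ P X T = κ '' (T \ Sta M N κ P X T) ∪ Un κ X T := by
    ext c
    constructor
    · rintro ⟨hcX, T', hT', hc⟩
      by_cases hcT : c ∈ κ '' T
      · obtain ⟨e, heT, rfl⟩ := hcT
        refine Or.inl ⟨e, ⟨heT, fun he => hc ⟨e, he T' hT', rfl⟩⟩, rfl⟩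
      · exact Or.inr ⟨hcX, hcT⟩
    · rintro (⟨e, ⟨heT, heS⟩, rfl⟩ | ⟨hcX, hcT⟩)
      · refine ⟨hst.col e heT, ?_⟩
        have hex : ∃ T', Rc M N κ P X T T' ∧ e ∉ T' := by
          by_contra hcon
          apply heS
          intro T' hT'
          by_contra hne
          exact hcon ⟨T', hT', hne⟩
        obtain ⟨T', hT', heT'⟩ := hex
        have main : ∀ T', Rc M N κ P X T T' → e ∉ T' →
            ∃ T'', Rc M N κ P X T T'' ∧ κ e ∉ κ '' T'' := by
          intro T' hT'
          induction hT' with
          | refl => intro h; exact absurd heT h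
          | @tail T1 T2 h1 h2 ih =>
            intro he2
            by_cases he1 : e ∈ T1
            · have hst1 := (hRCH E K M N κ s t P X T T1 hcol hmx hst h1).1
              refine ⟨T2, Relation.ReflTransGen.tail h1 h2, ?_⟩
              obtain ⟨x, y, hy, hx1, hx2, hx3, hx4, rfl⟩ := h2
              have hey : e = y := by
                by_contra hne
                exact he2 (Or.inr ⟨he1, hne⟩)
              rintro ⟨f, hf, hfe⟩
              rcases hf with rfl | ⟨hf1, hf2⟩
              · exact hx1 ⟨e, he1, hfe.symm⟩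
              · exact hf2 (by rw [← hey]; exact hst1.ri.inj hf1 he1 hfe)
            · exact ih he1
        obtain ⟨T'', h1, h2⟩ := main T' hT' heT'
        exact ⟨T'', h1, h2⟩
      · exact ⟨hcX, T, Relation.ReflTransGen.refl, hcT⟩
  rw [key, ncard_union_eq _ (Set.toFinite _) (Set.toFinite _), Set.InjOn.ncard_image]
  · exact hst.ri.inj.mono sdiff_subset
  · rw [Set.disjoint_left]
    rintro c ⟨e, ⟨heT, _⟩, rfl⟩ ⟨_, h2⟩
    exact h2 ⟨e, heT, rfl⟩

end Pool.Agent.RCM.H12
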